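import Pool.Agent.Lib.MP_751085_ag.ZF.X.G2
import Pool.Agent.Lib.MP_751085_ag.ZF.E.Fb
import Pool.Agent.Lib.MP_751085_ag.ZF.D.PB2

/-! Global function fields. -/

namespace Pool.Agent.ZFd

open scoped Classical
open MvPolynomial
open Pool.Agent.ZCy (Var Gen Fm grad)

variable {p : ℕ} [Fact p.Prime]

/-- A field generated over the prime field by algebraically independent elements. Every
polynomial in the `u i` is a sum `∑ c I ^ p * mon u I` (monomials; coefficients are their own `p`-th
powers), then `PB.mono` or directly; independence by `ind_of_span`. -/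
theorem pb_of_indep {K ι : Type} [Field K] [CharP K p] [Algebra (ZMod p) K] [Fintype ι] {u : ι → K}
    (h1 : AlgebraicIndependent (ZMod p) u)
    (h2 : IntermediateField.adjoin (ZMod p) (Set.range u) = ⊤) : PB p ⊤ u := by
  have hu : ∀ i, u i ∈ (⊤ : Subring K) := fun _ => trivial
  have H : ∀ a ∈ IntermediateField.adjoin (ZMod p) (Set.range u), a ∈ pb3_B p hu := fun a ha => by
    induction ha using IntermediateField.adjoin_induction with
    | mem x hx => exact hx.elim fun i e => e ▸ pb3_u hu i
    | algebraMap c =>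
      rw [← ZMod.pow_card c, map_pow]
      exact pb3_pow hu trivial
    | add x y _ _ hx hy => exact add_mem hx hy
    | mul x y _ _ hx hy => exact mul_mem hx hy
    | inv x _ hx =>
      rcases eq_or_ne x 0 with rfl | h0
      · rw [inv_zero]
        exact zero_mem _
      · have e : x⁻¹ = x ^ (p - 1) * x⁻¹ ^ p := by
          rw [← pow_sub_one_mul (Fact.out : p.Prime).ne_zero x⁻¹, ← mul_assoc, ← mul_pow,
            mul_inv_cancel₀ h0, one_pow, one_mul]
        rw [e]
        exact mul_mem (pow_mem hx _) (pb3_pow hu trivial)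
  have hs : ∀ a : K, a ∈ pb3_B p hu := fun a => H a (h2 ▸ IntermediateField.mem_top)
  have e1 : Algebra.EssFiniteType (ZMod p) K := IntermediateField.fg_top_iff.1
    (h2 ▸ IntermediateField.fg_adjoin_of_finite (Set.finite_range u))
  refine ⟨hu, fun a _ => hs a, ind_of_span (p := p) (.comp ℤ (ZMod p) K)
    (pb1_span (p := p) u fun b => (hs b).imp fun _ hc => hc.2) ?_,
    fun z => ⟨1, trivial, one_ne_zero, trivial⟩⟩
  rw [← Cardinal.mk_fintype]
  exact h1.cardinalMk_le_trdeg

/-- `exists_isTranscendenceBasis_and_isSeparable_of_perfectField`, `pb_of_indep`, `PB.ext_top`,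
`PB.equiv` -/
theorem gk_of_eft {k : Type} [Field k] [CharP k p] [Algebra (ZMod p) k] {r : ℕ}
    (h : Algebra.EssFiniteType ℤ k) (hr : Algebra.trdeg (ZMod p) k = r) : GK p r k := by
  have e1 : Algebra.EssFiniteType (ZMod p) k := .of_comp ℤ (ZMod p) k
  obtain ⟨s, hs, hsep⟩ := exists_isTranscendenceBasis_and_isSeparable_of_perfectField (ZMod p) k
  let K := IntermediateField.adjoin (ZMod p) (s : Set k)
  let u : s → K := fun i => ⟨i, IntermediateField.subset_adjoin _ _ i.2⟩
  have h2 : IntermediateField.adjoin (ZMod p) (Set.range u) = ⊤ := by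
    apply IntermediateField.lift_injective
    rw [IntermediateField.lift_adjoin, IntermediateField.lift_top, ← Set.range_comp]
    exact congrArg _ Subtype.range_coe
  have h3 : PB p ⊤ u := pb_of_indep (AlgebraicIndependent.of_comp K.val hs.1) h2
  have hc : Fintype.card (Fin r) = Fintype.card s := by
    have := hs.cardinalMk_eq_trdeg.trans hr
    rw [Cardinal.mk_fintype] at this
    rw [Fintype.card_fin]
    exact_mod_cast this.symm
  refine ⟨h, ⟨_, (h3.ext_top (E := k)).equiv (Fintype.equivOfCardEq hc)⟩, @fun a => ?_⟩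
  exact (hr.symm.trans (congrArg (@Algebra.trdeg (ZMod p) k _ _) (Subsingleton.elim _ a))).le

variable (p) (k : Type) [Field k] [CharP k p] (F₀ : Type) [Field F₀] [Finite F₀]
  [Algebra (RatFunc F₀) k] [FiniteDimensional (RatFunc F₀) k]
include F₀

/-- `F₀` has characteristic `p` and is finite over `ZMod p` -/
theorem gk_global : GK p 1 k := by
  have : CharP F₀ p := ((algebraMap (RatFunc F₀) k).comp (algebraMap F₀ (RatFunc F₀))).charP
    (RingHom.injective _) p
  let := ZMod.algebra k p
  let := ZMod.algebra F₀ p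
  let : Algebra F₀ k := ((algebraMap (RatFunc F₀) k).comp (algebraMap F₀ (RatFunc F₀))).toAlgebra
  have : IsScalarTower F₀ (RatFunc F₀) k := .of_algebraMap_eq' rfl
  have : IsScalarTower (ZMod p) F₀ k := .of_algebraMap_eq' (Subsingleton.elim _ _)
  have e1 : Algebra.EssFiniteType (Polynomial F₀) (RatFunc F₀) :=
    .of_isLocalization _ (nonZeroDivisors _)
  have e2 : Algebra.EssFiniteType F₀ (RatFunc F₀) := .comp F₀ (Polynomial F₀) _
  have e3 : Algebra.EssFiniteType F₀ k := .comp F₀ (RatFunc F₀) k
  have e4 : Algebra.IsAlgebraic (Polynomial F₀) (RatFunc F₀) :=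
    IsLocalization.isAlgebraic _ (nonZeroDivisors _)
  refine gk_of_eft (.comp ℤ F₀ k) ?_
  rw [← trdeg_add_eq (ZMod p) F₀, ← trdeg_add_eq F₀ (RatFunc F₀),
    ← trdeg_add_eq F₀ (Polynomial F₀), Polynomial.trdeg_of_isDomain, trdeg_eq_zero, trdeg_eq_zero,
    trdeg_eq_zero, zero_add, add_zero, add_zero, Nat.cast_one]

omit [Fact p.Prime] [CharP k p] [Finite F₀] [FiniteDimensional (RatFunc F₀) k] in
theorem infinite_global : Infinite k :=
  .of_injective _ ((algebraMap (RatFunc F₀) k).injective.comp (RatFunc.algebraMap_injective F₀))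

omit F₀ in
variable {p k} in
/-- `PB.fb`, `FB.equiv` -/
theorem GK.fb {r : ℕ} (h : GK p r k) : FB p k := h.pb.elim fun _ ht => ht.fb.equiv Subring.topEquiv

end Pool.Agent.ZFd
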