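import Pool.Agent.Lib.MP_751085_ag.ZF.E.Def2
import Pool.Agent.Lib.MP_751085_ag.ZF.EIf
import Pool.Agent.Lib.MP_751085_ag.ZF.C.Defs

/-! Coordinate rings of a projective variety; the Lefschetz statement. -/

namespace Pool.Agent.ZFd

open scoped Classical
open MvPolynomial
open Pool.Agent.ZCy (Var Gen Fm grad)

/-- a finitely generated field with a `p`-basis of `r` elements -/
structure GK (p r : ℕ) (k : Type) [Field k] : Prop where
  eft : Algebra.EssFiniteType ℤ k
  pb : ∃ t : Fin r → k, PB p ⊤ t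
  tr : ∀ [Algebra (ZMod p) k], (r : Cardinal) ≤ Algebra.trdeg (ZMod p) k

variable {k : Type} [Field k] (X : Var k)

/-- the value of a form at the generic point -/
noncomputable abbrev gv (G : Fm X.N k) : X.F := aeval X.g G

/-- the coordinate ring of the open set `l ≠ 0` -/
noncomputable def cr (l : Fm X.N k) : Subring X.F :=
  (Algebra.adjoin k (Set.range fun j => X.g j / gv X l)).toSubring

/-- classes of `p`-power order on a smooth section of large degree lift -/
def LEFp : Prop := ∀ (p : ℕ) [Fact p.Prime] (k : Type) [Field k] [CharP k p] (F₀ : Type) [Field F₀]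
  [Finite F₀] [Algebra (RatFunc F₀) k] [FiniteDimensional (RatFunc F₀) k] (X : Var k) (n : ℕ),
  X.Nice n → 4 ≤ n → ∃ d₀ : ℕ, ∀ d, d₀ ≤ d → ∀ (f : Fm X.N k) (Y : Gen k X.N), f.IsHomogeneous d →
    Y.var.Nice (n - 1) → X.Sec Y f → (X.SmAll fun _ : Unit => f) →
    ∀ a ∈ Y.var.Bw, ZCy.Prim p a → ∃ b, X.Mt Y a b ∧ ZCy.Prim p b

end Pool.Agent.ZFd
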