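import Pool.Agent.Lib.MP_751085_ag.ZF.X.G2
import Pool.Agent.Lib.MP_751085_ag.ZC.CB1
import Pool.Agent.Lib.MP_751085_ag.ZC.CInt

/-! The standard cover given by general linear forms. -/

namespace Pool.Agent.ZFd

open scoped Classical
open MvPolynomial
open Pool.Agent.ZCy (Var Gen Fm grad)

variable {k : Type} [Field k] {X : Var k} {n r p : ℕ}

theorem exists_b1 [Infinite k] (hn : Algebra.trdeg k X.F = n) :
    ∃ l : Fin (n + 1) → Fm X.N k, (∀ i, (l i).IsHomogeneous 1) ∧ X.B1 l := by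
  obtain ⟨a, ha⟩ := (Var.gn_b1 (ι := Fin (n + 1)) hn (Fintype.card_fin _) 1).exists
  exact ⟨ZCy.forms a, ZCy.forms_hom a, ha⟩

section

variable {κ : Type} {l : κ → Fm X.N k} (hl : ∀ i, (l i).IsHomogeneous 1)
include hl

theorem g3_mem (i j : κ) (h0 : gv X (l i) ≠ 0) : gv X (l j) / gv X (l i) ∈ cr X (l i) :=
  (mem_cr (hl i) h0).2 ⟨1, l j, hl j, by rw [pow_one]⟩

theorem pj_le (i : κ) (h0 : gv X (l i) ≠ 0) :
    (pj k (fun j => gv X (l j)) i).toSubring ≤ cr X (l i) := by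
  refine fun x hx => Algebra.adjoin_le (S := Algebra.adjoin k _) ?_ hx
  rintro _ ⟨j, rfl⟩
  exact g3_mem hl i j h0

theorem b1_integral (hb : X.B1 l) (i : κ) (h0 : gv X (l i) ≠ 0) (j : Fin (X.N + 1)) :
    IsIntegral (pj k (fun j => gv X (l j)) i) (X.g j / gv X (l i)) := by
  obtain ⟨H, hm, -, h⟩ := hb.int hl one_pos j
  have h1 := h X.F _ (X.on_g.zr.smul (gv X (l i))⁻¹)
  simp only [ZCy.aeval_smul_hom (hl _), pow_one, Pi.smul_apply, smul_eq_mul, ← div_eq_inv_mul] at h1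
  refine RingHom.IsIntegralElem.of_comp (f := (aeval fun j' => (⟨_, Algebra.subset_adjoin ⟨j', rfl⟩⟩ :
    pj k (fun j => gv X (l j)) i)).toRingHom) ⟨H, hm, Eq.trans ?_ h1⟩
  refine congrArg (Polynomial.eval₂ · _ H) (MvPolynomial.ringHom_ext (fun c => ?_) fun j' => ?_) <;>
    simp

theorem b1_fin (hb : X.B1 l) (i : κ) (h0 : gv X (l i) ≠ 0) : ∃ s : Finset X.F,
    (cr X (l i) : Set X.F) = Submodule.span (pj k (fun j => gv X (l j)) i) (s : Set X.F) := by
  have h1 := pj_le hl i h0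
  have h2 := b1_integral hl hb i h0
  generalize pj k (fun j => gv X (l j)) i = B at h1 h2 ⊢
  obtain ⟨s, hs⟩ := fg_adjoin_of_finite (R := B) (Set.finite_range fun j => X.g j / gv X (l i))
    (Set.forall_mem_range.2 h2)
  refine ⟨s, ?_⟩
  rw [hs, Subalgebra.coe_toSubmodule]
  refine Set.Subset.antisymm (fun x hx => ?_) fun x hx => ?_
  · have : Algebra.adjoin k (Set.range fun j => X.g j / gv X (l i)) ≤
        (Algebra.adjoin B (Set.range fun j => X.g j / gv X (l i))).restrictScalars k :=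
      Algebra.adjoin_le fun y hy => (Subalgebra.mem_restrictScalars k).2 (Algebra.subset_adjoin hy)
    exact this hx
  · refine Subring.closure_le (t := cr X (l i)).2 ?_ (Algebra.mem_adjoin_iff.1 hx)
    rintro _ (⟨y, rfl⟩ | h)
    exacts [h1 y.2, Algebra.subset_adjoin h]

theorem cov_cr [Fact p.Prime] [CharP k p] [CharP X.F p] (hX : X.Nice n) (hk : GK p r k)
    (h0 : ∀ i, gv X (l i) ≠ 0) : Cov p (r + n) (fun i => gv X (l i)) fun i => cr X (l i) := by
  refine ⟨fun i => cr_sm hX hk (hl i) (h0 i), h0, fun i j => g3_mem hl i j (h0 i), fun i j w hw => ?_⟩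
  obtain ⟨d, G, hG, rfl⟩ := (mem_cr (hl i) (h0 i)).1 hw
  refine ⟨d, (mem_cr (hl j) (h0 j)).2 ⟨d, G, hG, ?_⟩⟩
  rw [smul_eq_mul, div_pow, mul_comm, div_mul_div_cancel₀ (pow_ne_zero d (h0 i))]

end

variable {l : Fin (n + 1) → Fm X.N k}

/-- the function field is algebraic over the `n` quotients -/
theorem b1_indep (hn : Algebra.trdeg k X.F = n) (hl : ∀ i, (l i).IsHomogeneous 1) (hb : X.B1 l)
    (i : Fin (n + 1)) (h0 : gv X (l i) ≠ 0) :
    AlgebraicIndependent k fun j : Fin n => gv X (l (i.succAbove j)) / gv X (l i) := by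
  have e : pj k (fun j => gv X (l j)) i = Algebra.adjoin k
      (Set.range fun j : Fin n => gv X (l (i.succAbove j)) / gv X (l i)) := by
    refine le_antisymm (Algebra.adjoin_le ?_) (Algebra.adjoin_mono ?_)
    · rintro _ ⟨j, rfl⟩
      rcases i.eq_self_or_eq_succAbove j with rfl | ⟨j, rfl⟩
      · exact (congrArg (· ∈ _) (div_self h0)).mpr (one_mem _)
      · exact Algebra.subset_adjoin ⟨j, rfl⟩
    · rintro _ ⟨j, rfl⟩
      exact ⟨_, rfl⟩
  have hi : ∀ x ∈ cr X (l i), IsAlgebraic (pj k (fun j => gv X (l j)) i) x := fun x hx =>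
    IsIntegral.isAlgebraic (Algebra.adjoin_le (S := (integralClosure _ _).restrictScalars k) (by
      rintro _ ⟨j, rfl⟩
      exact b1_integral hl hb i h0 j) hx)
  rw [e] at hi
  have : Algebra.IsAlgebraic (Algebra.adjoin k
      (Set.range fun j : Fin n => gv X (l (i.succAbove j)) / gv X (l i))) X.F := ⟨fun z => by
    obtain ⟨s, h1, h2, h3⟩ := cr_frac (hl i) h0 z
    exact inv_mul_cancel_left₀ h2 z ▸ (hi s h1).inv.mul (hi _ h3)⟩
  exact (Algebra.IsAlgebraic.isTranscendenceBasis_of_le_trdeg_of_finite k _ (by simp [hn])).1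

theorem b1_ne (hn : Algebra.trdeg k X.F = n) (hl : ∀ i, (l i).IsHomogeneous 1) (hb : X.B1 l)
    (i : Fin (n + 1)) : gv X (l i) ≠ 0 := by
  obtain ⟨i₀, h0⟩ := hb X.F X.g X.on_g
  rcases i₀.eq_self_or_eq_succAbove i with rfl | ⟨j, rfl⟩
  exacts [h0, (div_ne_zero_iff.1 ((b1_indep hn hl hb i₀ h0).ne_zero j)).1]

theorem prj_cr (hn : Algebra.trdeg k X.F = n) (hl : ∀ i, (l i).IsHomogeneous 1) (hb : X.B1 l) :
    Prj k (fun i => gv X (l i)) fun i => cr X (l i) := by
  exact ⟨by simpa only [Fin.zero_succAbove] using b1_indep hn hl hb 0 (b1_ne hn hl hb 0),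
    fun i => pj_le hl i (b1_ne hn hl hb i), fun i => b1_fin hl hb i (b1_ne hn hl hb i)⟩

end Pool.Agent.ZFd
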