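import Pool.Agent.Lib.MP_751085_ag.ZF.X.G1
import Pool.Agent.Lib.MP_751085_ag.ZF.D.PB4
import Pool.Agent.Lib.MP_751085_ag.ZF.D.PB3
import Pool.Agent.Lib.MP_751085_ag.ZF.C.Sep
import Pool.Agent.Lib.MP_751085_ag.ZF.C.Lin
import Pool.Agent.Lib.MP_751085_ag.ZC.CCount

/-! The local rings of a smooth variety have `p`-bases. -/

namespace Pool.Agent.ZFd

open scoped Classical
open MvPolynomial
open Pool.Agent.ZCy (Var Gen Fm grad)

section

variable {F : Type} [Field F] {p : ℕ} {ι ι' : Type} [Fintype ι] [Fintype ι'] {O : Subring F}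
  {u : ι → F}

theorem PB.equiv (h : PB p O u) (e : ι' ≃ ι) : PB p O (u ∘ e) := by
  refine ⟨fun i => h.mem _, fun a ha => ?_, h.ind.comp e e.injective, h.frac⟩
  obtain ⟨c, hc, rfl⟩ := h.span a ha
  refine ⟨fun I => c (I ∘ e.symm), fun I => hc _, ?_⟩
  refine (Fintype.sum_equiv (e.arrowCongr (Equiv.refl _)) _ _ fun I => ?_).symm
  exact congrArg _ (Fintype.prod_equiv e _ _ fun i => by simp)

/-- chain rule for a derivation that kills the coefficients -/
theorem der_aeval {k A W σ : Type} [CommRing k] [CommRing A] [Algebra k A] [AddCommGroup W]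
    [Module A W] [Fintype σ] (D : Derivation ℤ A W) (hD : ∀ c, D (algebraMap k A c) = 0)
    (y : σ → A) (G : MvPolynomial σ k) :
    D (aeval y G) = ∑ j, aeval y (pderiv j G) • D (y j) := by
  induction G using MvPolynomial.induction_on with
  | C a => simp [hD]
  | add p q hp hq => simp [hp, hq, add_smul, Finset.sum_add_distrib]
  | mul_X p i hp =>
    simp only [map_mul, aeval_X, Derivation.leibniz, hp, smul_eq_mul, map_add, add_smul,
      Finset.sum_add_distrib, Finset.smul_sum, smul_smul, pderiv_X]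
    congr 1
    rw [Finset.sum_eq_single i (fun j _ hj => by simp [Ne.symm hj]) (by simp)]
    simp

theorem eq_zero_of_det {A W σ : Type} [CommRing A] [AddCommGroup W] [Module A W] [Fintype σ]
    {T : Matrix σ σ A} (hT : IsUnit T.det) {q : σ → W} (h : ∀ i, ∑ j, T i j • q j = 0) (j : σ) :
    q j = 0 := by
  have e : ∑ i, T⁻¹ j i • ∑ a, T i a • q a = q j := by
    simp only [Finset.smul_sum, smul_smul]
    rw [Finset.sum_comm]
    simp only [← Finset.sum_smul, ← Matrix.mul_apply, Matrix.nonsing_inv_mul T hT]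
    simp [Matrix.one_apply]
  rw [← e]
  simp [h]

theorem g2_kill {A M W σ τ : Type} [CommRing A] [Field M] [AddCommGroup W] [Module A W] [Fintype σ]
    [Fintype τ] (e : A →+* M) (he : ∀ a, e a ≠ 0 → IsUnit a) (T : τ → σ → A)
    (hT : ∀ v : σ → M, (∀ i, (fun a => e (T i a)) ⬝ᵥ v = 0) → v = 0) {q : σ → W}
    (h : ∀ i, ∑ a, T i a • q a = 0) (a : σ) : q a = 0 := by
  have h1 : Submodule.span M (Set.range fun i a => e (T i a)) = ⊤ := by
    rw [← ZCy.orth_orth (Submodule.span _ _), eq_top_iff]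
    intro w _ v hv
    rw [hT v fun i => hv _ (Submodule.subset_span ⟨i, rfl⟩), zero_dotProduct]
  obtain ⟨j, -, hj⟩ := ZCy.cnt_cols (fun a i => e (T i a)) fun w => by
    obtain ⟨c, hc⟩ := (Submodule.mem_span_range_iff_exists_fun M).1 (h1 ▸ Submodule.mem_top (x := w))
    exact ⟨c, fun a => by simpa using congrFun hc a⟩
  refine eq_zero_of_det (T := Matrix.of fun b a => T (j b) a) (he _ ?_) (fun b => h (j b)) a
  rw [RingHom.map_det, ← Matrix.det_transpose]
  exact ((Matrix.isUnit_iff_isUnit_det _).1 hj).ne_zero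

end

variable {k M : Type} [Field k] [Field M] [Algebra k M] {X : Var k} {x : Fin (X.N + 1) → M}
  {l f G : Fm X.N k} {n d r p : ℕ}

variable (X) in
/-- the value of a polynomial at the generic point, normalised by `l` -/
noncomputable abbrev gy (l G : Fm X.N k) : X.F := aeval (fun i => X.g i / gv X l) G

theorem gy_eq (l : Fm X.N k) (hG : G.IsHomogeneous d) : gy X l G = gv X G / gv X l ^ d := by
  have : (fun i => X.g i / gv X l) = (gv X l)⁻¹ • X.g := funext fun i => by
    rw [Pi.smul_apply, smul_eq_mul, div_eq_inv_mul]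
  rw [gy, this, ZCy.aeval_smul_hom hG, inv_pow, div_eq_inv_mul]

theorem reg_gy (hl : l.IsHomogeneous 1) (hx : X.On x) (h : aeval x l = 1) (G : Fm X.N k) :
    X.Reg x (gy X l G) (aeval x G) := by
  induction G using MvPolynomial.induction_on with
  | C a => simpa only [gy, aeval_C] using reg_const x a
  | add p q hp hq => simpa only [gy, map_add] using reg_add hp hq
  | mul_X p i hp =>
    have := reg_div hx (isHomogeneous_X k i) hl (h ▸ one_ne_zero)
    rw [h, div_one] at this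
    simpa only [gy, gv, map_mul, aeval_X] using reg_mul hp this

theorem exists_compl (hX : X.Nice n) (hl : l.IsHomogeneous 1) (hx : X.On x) (h : aeval x l = 1)
    {ι : Type} [Fintype ι] {f : ι → Fm X.N k}
    (hi : ∀ (a : ι → M) (c : M), ∑ i, a i • grad x (f i) + c • grad x l ∈ X.jac x → a = 0) :
    ∃ (n' : ℕ) (s : Fin n' → Fin (X.N + 1)), Fintype.card ι + n' = n ∧
      ∀ v : Fin (X.N + 1) → M, (∀ G ∈ X.I, grad x G ⬝ᵥ v = 0) → grad x l ⬝ᵥ v = 0 →
        (∀ i, grad x (Sum.elim f (fun j => MvPolynomial.X (s j)) i) ⬝ᵥ v = 0) → v = 0 := by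
  have h0 : grad x l ∉ X.jac x := fun e => by
    have := hx.zr.jac_dot e
    rw [ZCy.grad_dot_self hl, h] at this
    simp at this
  have h1 := ZCy.sepp_step h0
  have h2 := hX.finrank_jac hx
  have h3 : LinearIndependent M fun i => grad x (f i) :=
    Fintype.linearIndependent_iff.2 fun a e => congrFun (hi a 0 (by simp [e]))
  have h4 := Submodule.finrank_sup_add_finrank_inf_eq (X.jac x ⊔ Submodule.span M {grad x l})
    (Submodule.span M (Set.range fun i => grad x (f i)))
  have h5 : (X.jac x ⊔ Submodule.span M {grad x l}) ⊓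
      Submodule.span M (Set.range fun i => grad x (f i)) = ⊥ := by
    refine eq_bot_iff.2 fun w hw => ?_
    obtain ⟨a, rfl⟩ := (Submodule.mem_span_range_iff_exists_fun M).1 hw.2
    obtain ⟨u, hu, _, hc, e⟩ := Submodule.mem_sup.1 hw.1
    obtain ⟨c, rfl⟩ := Submodule.mem_span_singleton.1 hc
    rw [hi a (-c) (by rwa [← e, neg_smul, add_neg_cancel_right])]
    simp
  rw [h5, finrank_bot, finrank_span_eq_card h3, h1] at h4
  have h6 := Submodule.finrank_le ((X.jac x ⊔ Submodule.span M {grad x l}) ⊔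
    Submodule.span M (Set.range fun i => grad x (f i)))
  rw [Module.finrank_fin_fun] at h6
  obtain ⟨s, hs⟩ := ZCy.sepp_ext (n - Fintype.card ι) ((X.jac x ⊔ Submodule.span M {grad x l}) ⊔
    Submodule.span M (Set.range fun i => grad x (f i))) (by rw [Fintype.card_fin]; omega)
  refine ⟨_, s, by omega, fun v k1 k2 k3 => hs v (fun w hw => ?_) fun j => ?_⟩
  · have : (X.jac x ⊔ Submodule.span M {grad x l}) ⊔
        Submodule.span M (Set.range fun i => grad x (f i)) ≤ ZCy.orth (Submodule.span M {v}) := by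
      have H : ∀ w, w ⬝ᵥ v = 0 → w ∈ ZCy.orth (Submodule.span M {v}) := fun w e u hu => by
        obtain ⟨c, rfl⟩ := Submodule.mem_span_singleton.1 hu
        rw [smul_dotProduct, dotProduct_comm, e, smul_zero]
      refine sup_le (sup_le (Submodule.span_le.2 ?_) (Submodule.span_le.2 ?_))
        (Submodule.span_le.2 ?_)
      · rintro _ ⟨G, hG, rfl⟩
        exact H _ (k1 G hG)
      · rintro _ rfl
        exact H _ k2
      · rintro _ ⟨i, rfl⟩
        exact H _ (k3 (.inl i))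
    rw [dotProduct_comm]
    exact this hw v (Submodule.mem_span_singleton_self v)
  · simpa [grad, dotProduct, pderiv_X, Pi.single_apply] using k3 (.inr j)

theorem lr_der_eq_zero (hX : X.Nice n) (hl : l.IsHomogeneous 1) (hx : X.On x) (h : aeval x l = 1)
    {τ : Type} [Fintype τ] {s : τ → Fm X.N k} (hs : ∀ v : Fin (X.N + 1) → M,
      (∀ G ∈ X.I, grad x G ⬝ᵥ v = 0) → grad x l ⬝ᵥ v = 0 → (∀ j, grad x (s j) ⬝ᵥ v = 0) → v = 0)
    {W : Type} [AddCommGroup W] [Module (X.LR x) W] (D : Derivation ℤ (X.LR x) W)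
    (h1 : ∀ (c : k) (hc : algebraMap k X.F c ∈ X.LR x), D ⟨_, hc⟩ = 0)
    (h2 : ∀ j (hj : gy X l (s j) ∈ X.LR x), D ⟨_, hj⟩ = 0) : D = 0 := by
  let : Algebra k (X.LR x) :=
    ((algebraMap k X.F).codRestrict _ fun c => lr_mem.2 ⟨_, reg_const x c⟩).toAlgebra
  have hm : ∀ G, gy X l G ∈ X.LR x := fun G => lr_mem.2 ⟨_, reg_gy hl hx h G⟩
  let y : Fin (X.N + 1) → X.LR x := fun i => ⟨_, hm (MvPolynomial.X i)⟩
  have hy : ∀ G : Fm X.N k, aeval y G = ⟨_, hm G⟩ := fun G => by
    induction G using MvPolynomial.induction_on with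
    | C a => exact (aeval_C y a).trans (Subtype.ext (aeval_C _ a).symm)
    | add p q hp hq =>
      rw [map_add, hp, hq]
      exact Subtype.ext (map_add _ p q).symm
    | mul_X p i hp =>
      rw [map_mul, hp, aeval_X]
      exact Subtype.ext (map_mul _ p _).symm
  have h0 := gv_ne hx hl (h ▸ one_ne_zero)
  obtain ⟨e, he⟩ := lr_ev hx
  have hu : ∀ a, e a ≠ 0 → IsUnit a := fun a ha => by
    obtain ⟨m, hm⟩ := lr_mem.1 a.2
    exact (un_iff a).1 ((lr_un hx hm).2 (he a m hm ▸ ha))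
  have hey : ∀ G : Fm X.N k, e (aeval y G) = aeval x G := fun G => by
    rw [hy]
    exact he _ _ (reg_gy hl hx h G)
  have hD := der_aeval D (fun c => h1 c _) y
  obtain ⟨r, B, -, hB, -, hsp⟩ := hX.exists_basis_jac hx
  have h3 := g2_kill e hu (fun (i : Fin r ⊕ Option τ) a =>
      aeval y (pderiv a (Sum.elim B (fun o => o.elim l s) i))) (fun v hv => ?_)
    (q := fun a => D (y a)) fun i => ?_
  · have h4 : ∀ G : Fm X.N k, D (aeval y G) = 0 := fun G => by simp [hD, h3]
    ext a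
    obtain ⟨m, d, G, H, hG, hH, k1, k2, -⟩ := lr_mem.1 a.2
    have k3 : a * aeval y H = aeval y G := by
      rw [hy, hy]
      refine Subtype.ext ?_
      change (a : X.F) * gy X l H = gy X l G
      rw [gy_eq l hG, gy_eq l hH, ← mul_div_assoc, k2]
    have k4 := h4 G
    rw [← k3, Derivation.leibniz, h4, smul_zero, zero_add] at k4
    exact ((hu _ (by rwa [hey])).smul_eq_zero).1 k4
  · simp only [hey] at hv
    refine hs v (fun G hG => ?_) (hv (.inr none)) fun j => hv (.inr (some j))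
    have k0 : grad x G ∈ X.jac x := Submodule.subset_span ⟨G, hG, rfl⟩
    rw [← hsp] at k0
    obtain ⟨c, hc⟩ := (Submodule.mem_span_range_iff_exists_fun M).1 k0
    rw [← hc, sum_dotProduct]
    exact Finset.sum_eq_zero fun t _ => by
      rw [smul_dotProduct, show grad x (B t) ⬝ᵥ v = 0 from hv (.inl t), smul_zero]
  · rw [← hD, hy]
    rcases i with t | _ | j
    · obtain ⟨m, hm'⟩ := (hB t).1
      exact (congrArg D (Subtype.ext
        ((gy_eq l hm').trans (by rw [gv, (hB t).2, zero_div]; rfl)))).trans D.map_zero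
    · exact (congrArg D (Subtype.ext
        ((gy_eq l hl).trans (by rw [pow_one, div_self h0]; rfl)))).trans D.map_one_eq_zero
    · exact h2 j _

variable [Fact p.Prime] [CharP k p] [CharP X.F p]

theorem lr_pb (hX : X.Nice n) (hk : GK p r k) {t : Fin r → k} (ht : PB p ⊤ t)
    (hl : l.IsHomogeneous 1) (hx : X.On x) (h : aeval x l = 1)
    {τ : Type} [Fintype τ] (hτ : Fintype.card τ = n) {s : τ → Fm X.N k}
    (hs : ∀ v : Fin (X.N + 1) → M,
      (∀ G ∈ X.I, grad x G ⬝ᵥ v = 0) → grad x l ⬝ᵥ v = 0 → (∀ j, grad x (s j) ⬝ᵥ v = 0) → v = 0) :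
    PB p (X.LR x) (Sum.elim (fun i => algebraMap k X.F (t i)) fun j => gy X l (s j)) := by
  have h0 := gv_ne hx hl (h ▸ one_ne_zero)
  have hL := isLoc_lr hl hx (h ▸ one_ne_zero)
  have hc : ∀ c, algebraMap k X.F c ∈ X.LR x := fun c => lr_mem.2 ⟨_, reg_const x c⟩
  have hm : ∀ i, Sum.elim (fun i => algebraMap k X.F (t i)) (fun j => gy X l (s j)) i ∈ X.LR x := by
    rintro (i | j)
    exacts [hc _, lr_mem.2 ⟨_, reg_gy hl hx h _⟩]
  have hfr : ∀ z : X.F, ∃ s ∈ X.LR x, s ≠ 0 ∧ s * z ∈ X.LR x := fun z => by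
    obtain ⟨s, h1, h2, h3⟩ := cr_frac hl h0 z
    exact ⟨s, hL.le h1, h2, hL.le h3⟩
  have he := essFiniteType_of_frac hL.le hL.frac (cr_eft hk.eft l)
  have hsp : Submodule.span (X.LR x) (Set.range fun i => (dK (⟨_, hm i⟩ : X.LR x) : Om _)) = ⊤ := by
    obtain ⟨N, hN⟩ : ∃ N, N = Submodule.span (X.LR x)
      (Set.range fun i => (dK (⟨_, hm i⟩ : X.LR x) : Om _)) := ⟨_, rfl⟩
    have hN' : ∀ i, dK (⟨_, hm i⟩ : X.LR x) ∈ N := fun i => hN ▸ Submodule.subset_span ⟨i, rfl⟩
    have h1 := lr_der_eq_zero hX hl hx h hs (N.mkQ.compDer dK) (fun a _ => ?_)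
      fun j _ => (Submodule.Quotient.mk_eq_zero N).2 (hN' (.inr j))
    · rw [← hN, eq_top_iff, ← KaehlerDifferential.span_range_derivation, Submodule.span_le]
      rintro _ ⟨b, rfl⟩
      exact (Submodule.Quotient.mk_eq_zero N).1 (DFunLike.congr_fun h1 b)
    · let φ := (algebraMap k X.F).codRestrict _ hc
      refine (Submodule.Quotient.mk_eq_zero N).2 (?_ : dK (φ a) ∈ N)
      rw [← pb_d, ← ht.sum_co (dK a), map_sum]
      exact N.sum_mem fun i _ => by
        rw [pb_smul_d]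
        exact N.smul_mem _ (hN' (.inl i))
  let := ZMod.algebra k p
  let := ZMod.algebra X.F p
  have : IsScalarTower (ZMod p) k X.F :=
    IsScalarTower.of_algebraMap_eq' (Subsingleton.elim _ _)
  refine pb_crit (ff_of_eft he) hfr hm hsp (ind_of_span ?_ ?_ ?_)
  · have := essFiniteType_of_frac (O' := ⊤) le_top
      (fun z _ => (hfr z).imp fun s hs => ⟨hs.1, un_top.2 hs.2.1, hs.2.2⟩) he
    exact Algebra.EssFiniteType.of_surjective (Subring.topEquiv (R := X.F)).toRingHom.toIntAlgHom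
      Subring.topEquiv.surjective
  · refine eq_top_iff.2 fun ω _ => ?_
    obtain ⟨c, -, h1, h2⟩ := ((qc_om (X.LR x)).loc ⊤ (isLoc_top hfr) ω).1 (OmS_top ω)
    obtain ⟨ω', h3⟩ := mem_OmS_range.1 h2
    obtain ⟨a, rfl⟩ := (Submodule.mem_span_range_iff_exists_fun _).1
      (hsp ▸ Submodule.mem_top (x := ω'))
    rw [← Submodule.smul_mem_iff _ h1.2.1]
    refine h3 ▸ ?_
    rw [map_sum]
    exact Submodule.sum_mem _ fun i _ => by
      rw [pb_smul_d]
      exact Submodule.smul_mem _ _ (Submodule.subset_span ⟨i, rfl⟩)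
  · rw [← trdeg_add_eq (ZMod p) k (A := X.F), hX.dim, Fintype.card_sum, Fintype.card_fin, hτ,
      Nat.cast_add]
    exact add_le_add hk.tr le_rfl

theorem exists_lr_pb (hX : X.Nice n) (hk : GK p r k) {t : Fin r → k} (ht : PB p ⊤ t)
    (hl : l.IsHomogeneous 1) (hx : X.On x) (h : aeval x l = 1) {ι : Type} [Fintype ι]
    {f : ι → Fm X.N k} (hf : ∀ i, (f i).IsHomogeneous d) (h0 : ∀ i, aeval x (f i) = 0)
    (hi : ∀ a : ι → M, ∑ i, a i • grad x (f i) ∈ X.jac x → a = 0) :
    ∃ (n' : ℕ) (w : Fin n' → X.F), Fintype.card ι + n' = n ∧ PB p (X.LR x)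
      (Sum.elim (fun i => algebraMap k X.F (t i)) (Sum.elim (fun i => gv X (f i) / gv X l ^ d) w)) := by
  obtain ⟨n', s, e, hs⟩ := exists_compl hX hl hx h (f := f) fun a c hc => by
    have := hx.zr.jac_dot hc
    simp only [add_dotProduct, sum_dotProduct, smul_dotProduct, ZCy.grad_dot_self (hf _),
      ZCy.grad_dot_self hl, h0, h, mul_zero, Finset.sum_const_zero, zero_add,
      Nat.cast_one, mul_one, smul_eq_mul] at this
    exact hi a (by rwa [this, zero_smul, add_zero] at hc)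
  refine ⟨n', fun j => gy X l (MvPolynomial.X (s j)), e, ?_⟩
  have := lr_pb hX hk ht hl hx h (by rw [Fintype.card_sum, Fintype.card_fin, e]) hs
  refine (congrArg (fun w => PB p (X.LR x) (Sum.elim _ w)) (funext ?_)).mp this
  rintro (i | j)
  exacts [gy_eq l (hf i), rfl]

theorem cr_sm (hX : X.Nice n) (hk : GK p r k) (hl : l.IsHomogeneous 1) (h0 : gv X l ≠ 0) :
    Sm p (r + n) (cr X l) := by
  refine ⟨cr_eft hk.eft l, cr_frac hl h0, fun O hO => ?_⟩
  obtain ⟨M, _, _, x, hx, h, rfl⟩ := exists_pt hl h0 hO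
  obtain ⟨t, ht⟩ := hk.pb
  obtain ⟨n', w, e, H⟩ := exists_lr_pb (d := 0) hX hk ht hl hx h (ι := Empty) (f := Empty.elim)
    (·.elim) (·.elim) fun a _ => Subsingleton.elim _ _
  exact ⟨_, H.equiv (Fintype.equivFinOfCardEq (by simp [← e])).symm⟩

theorem lr_reg (hX : X.Nice n) (hk : GK p r k) (hx : X.On x) : Reg p (r + n) (X.LR x) := by
  obtain ⟨i, hi⟩ := Function.ne_iff.1 hx.1
  have h : aeval x (MvPolynomial.X i : Fm X.N k) ≠ 0 := by rwa [aeval_X]
  exact (cr_sm hX hk (isHomogeneous_X k i) (gv_ne hx (isHomogeneous_X k i) h)).reg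
    (isLoc_lr (isHomogeneous_X k i) hx h)

theorem exists_der_unit (hX : X.Nice n) (hk : GK p r k) (hl : l.IsHomogeneous 1) (hx : X.On x)
    (h : aeval x l = 1) (hf : f.IsHomogeneous d) (h0 : aeval x f = 0) (hs : grad x f ∉ X.jac x) :
    ∃ (u : Fin r ⊕ Fin n → X.F) (i : Fin r ⊕ Fin n), PB p (X.LR x) u ∧
      Un (X.LR x) (der u i (gv X f / gv X l ^ d)) := by
  obtain ⟨t, ht⟩ := hk.pb
  obtain ⟨n', w, e, H⟩ := exists_lr_pb hX hk ht hl hx h (f := fun _ : Unit => f) (fun _ => hf)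
    (fun _ => h0) fun a ha => funext fun i => by_contra fun hne => hs (by
      rwa [Fintype.sum_unique, Submodule.smul_mem_iff _ hne] at ha)
  let ε : Fin r ⊕ Fin n ≃ Fin r ⊕ Unit ⊕ Fin n' := Fintype.equivOfCardEq (by simp [← e])
  refine ⟨_, ε.symm (.inr (.inl ())), H.equiv ε, ?_⟩
  have := (H.equiv ε).der_u (ε.symm (.inr (.inl ()))) (ε.symm (.inr (.inl ())))
  rw [if_pos rfl, Function.comp_apply, ε.apply_symm_apply] at this
  exact this ▸ un_one _

end Pool.Agent.ZFd
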