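import Pool.Agent.Lib.MP_751085_ag.ZF.X.G3
import Pool.Agent.Lib.MP_751085_ag.ZF.X.Gk
import Pool.Agent.Lib.MP_751085_ag.ZF.B.Inst
import Pool.Agent.Lib.MP_751085_ag.ZF.E.Fin
import Pool.Agent.Lib.MP_751085_ag.ZF.E.N1
import Pool.Agent.Lib.MP_751085_ag.ZF.N.Iface

/-! The map from forms to Brauer classes: the exported properties. -/

namespace Pool.Agent.ZFd

open scoped Classical
open MvPolynomial
open Pool.Agent.ZCy (Var Gen Fm grad)
open Pool.Agent.ZCy.F (BR UC Loc)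

variable {p : ℕ} [Fact p.Prime]

omit [Fact p.Prime] in
theorem hb_of {E : Type} [Field E] (h : ZFN.HPB p E) : HB p E := by
  obtain ⟨ι, _, u, hu⟩ := h
  exact ⟨_, _, hu.equiv (Fintype.equivFin ι).symm⟩

theorem api_val {k : Type} [Field k] [CharP k p] {X : Var k} (eX : ZCy.F.EvApi X) (hF : HB p X.F)
    {M : Type} [Field M] [Algebra k M] (hM : HB p M) {x : Fin (X.N + 1) → M} (hx : X.On x)
    {I : Type} [Fintype I] {a b : I → X.F} {a' b' : I → M}
    (h : ∀ i, X.Reg x (a i) (a' i) ∧ X.Reg x (b i) (b' i))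
    (hB : ∑ i, dlt p X.F (mq p (a i • dK (b i))) ∈ X.Bw) :
    X.vl (∑ i, dlt p X.F (mq p (a i • dK (b i)))) M x = ∑ i, dlt p M (mq p (a' i • dK (b' i))) := by
  have : CharP X.F p := charP_of_injective_algebraMap (algebraMap k X.F).injective p
  have : CharP M p := charP_of_injective_algebraMap (algebraMap k M).injective p
  have := (lr_loc hx).isLocalRing
  obtain ⟨e, he⟩ := lr_ev hx
  let a₀ : I → X.LR x := fun i => ⟨a i, lr_mem.2 ⟨_, (h i).1⟩⟩
  let b₀ : I → X.LR x := fun i => ⟨b i, lr_mem.2 ⟨_, (h i).2⟩⟩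
  obtain ⟨U, hU⟩ := uc_form (p := p) (CharP.cast_eq_zero _ p) (∑ i, a₀ i • dK (b₀ i))
  refine (eX.vw _ hB M x hx _).1 ⟨U, e, he, ?_, ?_⟩
  · rw [hU _ _ hF, map_sum, map_sum, map_sum]
    exact Finset.sum_congr rfl fun i _ => by rw [pb_smul_d]; rfl
  · rw [hU _ _ hM, map_sum, map_sum, map_sum]
    exact Finset.sum_congr rfl fun i _ => by
      rw [pb_smul_d, he (a₀ i) _ (h i).1, he (b₀ i) _ (h i).2]

theorem api_fin {k : Type} [Field k] [CharP k p] [Infinite k] {r n : ℕ} (hk : GK p r k) {X : Var k}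
    (hX : X.Nice n) : ∃ (m : ℕ) (e : Fin m → Om X.F), ∀ a ∈ X.Bw, p • a = 0 →
      ∃ c : Fin m → k, dlt p X.F (mq p (∑ i, algebraMap k X.F (c i) • e i)) = a := by
  have : CharP X.F p := charP_of_injective_algebraMap (algebraMap k X.F).injective p
  obtain ⟨l, hl, hb⟩ := exists_b1 hX.dim
  have h0 := b1_ne hX.dim hl hb
  have hC := cov_cr hl hX hk h0
  obtain ⟨V, _, hV⟩ := (bd _ (hC.sm 0).hb).fin_rep hk.fb hC (prj_cr hX.dim hl hb)
  let β := Module.finBasis k V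
  refine ⟨_, fun i => β i, fun a ha hp => ?_⟩
  obtain ⟨ω, hω, e⟩ := hV a ((mem_bw hl h0 hb).1 ha) hp
  refine ⟨β.repr ⟨ω, hω⟩, Eq.trans (congrArg (fun w => dlt p X.F (mq p w)) ?_) e⟩
  have := congrArg Subtype.val (β.sum_repr ⟨ω, hω⟩)
  rw [AddSubmonoidClass.coe_finsetSum] at this
  exact (Finset.sum_congr rfl fun i _ => algebraMap_smul _ _ _).trans this

theorem dapi (p : ℕ) [Fact p.Prime] : Nonempty (ZFN.DApi p) := ⟨{
  dl := fun E _ => dlt p E
  ker := fun _ _ _ h _ => dlt_eq_zero (hb_of h)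
  sur := fun _ _ _ h _ => exists_dlt (hb_of h)
  div := fun _ _ _ h => br_div (hb_of h)
  rs := fun _ _ _ _ _ _ h h' => rs_dlt (hb_of h) (hb_of h')
  cor := fun K L _ _ _ _ _ _ t ht g => by
    have : CharP L p := charP_of_injective_algebraMap (algebraMap K L).injective p
    rw [ZCy.F.corN_sep]
    have := cor_dlt (hb_of ⟨_, _, _, ht⟩) g (dK t)
    rwa [pb_d] at this
  val := fun _ _ _ _ eX hF _ _ _ hM _ hx _ _ _ _ _ _ => api_val eX (hb_of hF) (hb_of hM) hx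
  fin := fun k _ _ F₀ _ _ _ _ _ _ hX _ =>
    haveI := infinite_global k F₀
    api_fin (gk_global p k F₀) hX }⟩

end Pool.Agent.ZFd
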