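import Pool.Agent.Lib.MP_751085_ag.ZF.X.G2
import Pool.Agent.Lib.MP_751085_ag.ZF.D.Pr
import Pool.Agent.Lib.MP_751085_ag.ZF.D.Ufd
import Pool.Agent.Lib.MP_751085_ag.ZF.E.Cov

/-! Smooth sections. -/

namespace Pool.Agent.ZFd

open scoped Classical
open MvPolynomial
open Pool.Agent.ZCy (Var Gen Fm grad)

variable {k M : Type} [Field k] [Field M] [Algebra k M] {X : Var k} {Y : Gen k X.N}
  {x : Fin (X.N + 1) → M} {l f G : Fm X.N k} {n d d' r p : ℕ}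

theorem sec_on (hY : X.Sec Y f) : X.On Y.g ∧ aeval Y.g f = 0 := (hY Y.F Y.g).1 Y.var.on_g

theorem smAll_one (h : X.SmAll fun _ : Unit => f) (hx : X.On x) (h0 : aeval x f = 0) :
    grad x f ∉ X.jac x := by
  intro hj
  exact one_ne_zero (congrFun (h M x hx (fun _ => 1) (fun _ _ => h0) (by simpa using hj)) ())

theorem sec_ne (hY : X.Sec Y f) (hf : f.IsHomogeneous d) (h : X.SmAll fun _ : Unit => f) :
    gv X f ≠ 0 := by
  intro e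
  exact smAll_one h (sec_on hY).1 (sec_on hY).2 (Submodule.subset_span ⟨f, ⟨⟨d, hf⟩, e⟩, rfl⟩)

/-- a function that is regular at a point of `Y` is regular at the generic point of `Y` -/
theorem reg_sec (hY : X.Sec Y f) (hx : Y.var.On x) {a : X.F} {m : M} (h : X.Reg x a m) :
    ∃ b : Y.F, X.Reg Y.g a b ∧ Y.var.Reg x b m := by
  obtain ⟨d, G, H, hG, hH, h0, e1, e2⟩ := h
  have h1 : aeval Y.g H ≠ 0 := gv_ne (X := Y.var) hx hH h0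
  exact ⟨aeval Y.g G / aeval Y.g H, ⟨d, G, H, hG, hH, h1, e1, div_mul_cancel₀ _ h1⟩,
    ⟨d, G, H, hG, hH, h0, div_mul_cancel₀ _ h1, e2⟩⟩

theorem reg_lift (hY : X.Sec Y f) (hx : Y.var.On x) {b : Y.F} {m : M} (h : Y.var.Reg x b m) :
    ∃ a : X.F, X.Reg Y.g a b ∧ X.Reg x a m := by
  obtain ⟨d, G, H, hG, hH, h0, e1, e2⟩ := h
  have h1 := gv_ne ((hY M x).1 hx).1 hH h0
  exact ⟨gv X G / gv X H,
    ⟨d, G, H, hG, hH, gv_ne (X := Y.var) hx hH h0, div_mul_cancel₀ _ h1, e1⟩,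
    ⟨d, G, H, hG, hH, h0, div_mul_cancel₀ _ h1, e2⟩⟩

theorem lr_le (hY : X.Sec Y f) (hx : Y.var.On x) : X.LR x ≤ X.LR Y.g := by
  intro a ha
  obtain ⟨m, hm⟩ := lr_mem.1 ha
  obtain ⟨b, hb, -⟩ := reg_sec hY hx hm
  exact lr_mem.2 ⟨b, hb⟩

theorem g4_reg (hx : X.On x) (hl : l.IsHomogeneous 1) (h0 : aeval x l ≠ 0)
    (hG : G.IsHomogeneous d) : X.Reg x (gv X G / gv X l ^ d) (aeval x G / aeval x l ^ d) := by
  have h1 := reg_div hx hG ((one_mul d) ▸ hl.pow d) (by rw [map_pow]; exact pow_ne_zero _ h0)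
  simpa only [gv, map_pow] using h1

section

variable {ρ : Rd p (X.LR Y.g) Y.F} (hY : X.Sec Y f) (hρ : X.IsEv Y.g ρ.hom)
include hY hρ

omit hY hρ in
theorem g4_im {A : Subring X.F} (h : A ≤ X.LR Y.g) {z : Y.F} :
    z ∈ ρ.im A ↔ ∃ a ∈ A, ρ.r a = z :=
  ⟨fun ⟨a, ha, e⟩ => ⟨a, ha, e⟩, fun ⟨a, ha, e⟩ => ⟨⟨a, h ha⟩, ha, e⟩⟩

omit hY in
theorem g4_ev {a : X.F} {b : Y.F} (h : X.Reg Y.g a b) : ρ.r a = b :=
  hρ ⟨a, lr_mem.2 ⟨b, h⟩⟩ b h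

theorem g4_val (hl : l.IsHomogeneous 1) (h0 : gv Y.var l ≠ 0) (hG : G.IsHomogeneous d) :
    ρ.r (gv X G / gv X l ^ d) = gv Y.var G / gv Y.var l ^ d :=
  g4_ev hρ (g4_reg (sec_on hY).1 hl h0 hG)

theorem im_lr (hx : Y.var.On x) : ρ.im (X.LR x) = Y.var.LR x := by
  ext z
  rw [g4_im (lr_le hY hx), lr_mem]
  constructor
  · rintro ⟨a, ha, rfl⟩
    obtain ⟨m, hm⟩ := lr_mem.1 ha
    obtain ⟨b, h1, h2⟩ := reg_sec hY hx hm
    exact ⟨m, g4_ev hρ h1 ▸ h2⟩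
  · rintro ⟨m, hm⟩
    obtain ⟨a, h1, h2⟩ := reg_lift hY hx hm
    exact ⟨a, lr_mem.2 ⟨m, h2⟩, g4_ev hρ h1⟩

theorem im_cr (hl : l.IsHomogeneous 1) (h0 : gv Y.var l ≠ 0) : ρ.im (cr X l) = cr Y.var l := by
  have h1 := gv_ne (sec_on hY).1 hl h0
  ext z
  rw [g4_im (isLoc_lr hl (sec_on hY).1 h0).le, mem_cr (X := Y.var) hl h0]
  constructor
  · rintro ⟨a, ha, rfl⟩
    obtain ⟨d, G, hG, rfl⟩ := (mem_cr hl h1).1 ha
    exact ⟨d, G, hG, g4_val hY hρ hl h0 hG⟩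
  · rintro ⟨d, G, hG, rfl⟩
    exact ⟨_, (mem_cr hl h1).2 ⟨d, G, hG, rfl⟩, g4_val hY hρ hl h0 hG⟩

end

variable [Fact p.Prime] [CharP k p] [CharP X.F p] [CharP Y.F p]

theorem exists_rd_ev (hX : X.Nice n) (hk : GK p r k) (hY : X.Sec Y f) :
    ∃ ρ : Rd p (X.LR Y.g) Y.F, X.IsEv Y.g ρ.hom := by
  obtain ⟨u, hu⟩ := (lr_reg hX hk (sec_on hY).1).pb
  obtain ⟨e, he⟩ := lr_ev (sec_on hY).1
  obtain ⟨ρ, hρ⟩ := exists_rd hu e
  exact ⟨ρ, fun a m hm => (hρ a).trans (he a m hm)⟩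

/-- a local check -/
theorem g4_ker (hX : X.Nice n) (hk : GK p r k) (hY : X.Sec Y f) (hf : f.IsHomogeneous d)
    (h : X.SmAll fun _ : Unit => f) (hl : l.IsHomogeneous 1) (h0 : gv X l ≠ 0)
    (hG : G.IsHomogeneous d') (hG0 : gv Y.var G = 0) :
    gv X G / gv X l ^ d' / (gv X f / gv X l ^ d) ∈ cr X l := by
  refine (qc_ring (cr X l)).glob.2 fun O hO => ?_
  obtain ⟨M, _, _, x, hx, h1, rfl⟩ := exists_pt hl h0 hO
  have h2 := hO.le ((mem_cr hl h0).2 ⟨d', G, hG, rfl⟩)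
  have h3 := g4_reg hx hl (h1.trans_ne one_ne_zero) hf
  rw [h1, one_pow, div_one] at h3
  by_cases h4 : aeval x f = 0
  · obtain ⟨u, i, hu, hi⟩ := exists_der_unit hX hk hl hx h1 hf h4 (smAll_one h hx h4)
    obtain ⟨m, hm, H⟩ := pow_div_mem hl h0 hG hf (sec_ne hY hf h) fun M _ _ x hx e =>
      ((hY M x).2 ⟨hx, e⟩).2 G ⟨⟨d', hG⟩, hG0⟩
    exact (lr_reg hX hk hx).dvd_of_pow hu (lr_mem.2 ⟨_, h3⟩) hi h2 (hO.le H)
      (div_ne_zero (sec_ne hY hf h) (pow_ne_zero _ h0)) hm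
  · exact ((lr_un hx h3).2 h4).div_mem h2

theorem sec_pr (hX : X.Nice (n + 1)) (hk : GK p r k) (hY : X.Sec Y f) (hYn : Y.var.Nice n)
    (hf : f.IsHomogeneous d) (h : X.SmAll fun _ : Unit => f) (hl : l.IsHomogeneous 1)
    (h0 : gv Y.var l ≠ 0) {ρ : Rd p (X.LR Y.g) Y.F} (hρ : X.IsEv Y.g ρ.hom) :
    Pr (r + n) ρ (cr X l) (gv X f / gv X l ^ d) := by
  have h1 := gv_ne (sec_on hY).1 hl h0
  have h2 := isLoc_lr hl (sec_on hY).1 h0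
  have h3 := (mem_cr hl h1).2 ⟨d, f, hf, rfl⟩
  have h4 := div_ne_zero (sec_ne hY hf h) (pow_ne_zero d h1)
  refine ⟨(cr_sm hX hk hl h1 :), ?_, h2, h3, h4, fun a ha => ⟨fun e => ?_, fun e => ?_⟩,
    fun a ha e => ?_⟩
  · rw [im_cr hY hρ hl h0]
    exact cr_sm hYn hk hl h0
  · obtain ⟨d', G, hG, rfl⟩ := (mem_cr hl h1).1 ha
    rw [g4_val hY hρ hl h0 hG, div_eq_zero_iff] at e
    exact g4_ker hX hk hY hf h hl h1 hG (e.resolve_right (pow_ne_zero _ h0))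
  · rw [← div_mul_cancel₀ a h4, ρ.mul _ (h2.le e) _ (h2.le h3), g4_val hY hρ hl h0 hf,
      show gv Y.var f = 0 from (sec_on hY).2, zero_div, mul_zero]
  · obtain ⟨m, hm⟩ := lr_mem.1 ha
    exact (lr_un (sec_on hY).1 hm).2 (g4_ev hρ hm ▸ e)

/-- if `l i` vanishes on `Y` then `l i / f` is a global section of the twist -/
theorem sec_l_ne {κ : Type} [Fintype κ] {l : κ → Fm X.N k} {m : ℕ} (hX : X.Nice n) (hk : GK p r k)
    (hY : X.Sec Y f) (hf : f.IsHomogeneous d) (h : X.SmAll fun _ : Unit => f)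
    (hl : ∀ i, (l i).IsHomogeneous 1) (hC : Cov p m (fun i => gv X (l i)) fun i => cr X (l i))
    (hV : Van (tw (fun i => gv X (l i)) (oS fun i => cr X (l i)) ((d : ℤ) - 1)) 0) (i : κ) :
    gv Y.var (l i) ≠ 0 := by
  intro e
  have : Nonempty κ := ⟨i⟩
  refine div_ne_zero (hC.ne i) (sec_ne hY hf h) ((van_zero_iff tw_empty).1 hV _ fun j => ?_)
  have h1 := g4_ker hX hk hY hf h (hl j) (hC.ne j) (hl i) e
  have h2 : gv X (l j) ≠ 0 := hC.ne j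
  have h3 : gv X (l j) ^ ((d : ℤ) - 1) * (gv X (l i) / gv X f) =
      gv X (l i) / gv X (l j) ^ 1 / (gv X f / gv X (l j) ^ d) := by
    rw [zpow_sub₀ h2, zpow_natCast, zpow_one, pow_one, div_div_eq_mul_div]
    ring
  rw [hC.mem_tw_o (Set.mem_singleton j), rg_one, h3]
  exact h1

end Pool.Agent.ZFd
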