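import Pool.Agent.Lib.MP_751085_ag.ZF.X.G3
import Pool.Agent.Lib.MP_751085_ag.ZF.X.G4
import Pool.Agent.Lib.MP_751085_ag.ZF.X.Gk
import Pool.Agent.Lib.MP_751085_ag.ZF.B.Inst
import Pool.Agent.Lib.MP_751085_ag.ZF.E.Abs
import Pool.Agent.Lib.MP_751085_ag.ZF.E.Rel
import Pool.Agent.Lib.MP_751085_ag.ZF.E.Exp

/-! The Lefschetz theorem for classes of `p`-power order. -/

namespace Pool.Agent.ZFd

open scoped Classical
open MvPolynomial
open Pool.Agent.ZCy (Var Gen Fm grad)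
open Pool.Agent.ZCy.F (BR UC Loc)

variable {k : Type} [Field k] {X : Var k} {Y : Gen k X.N} {f : Fm X.N k} {p m : ℕ} [Fact p.Prime]
  [CharP X.F p] [CharP Y.F p]

theorem mt_spv (eX : ZCy.F.EvApi X) (eY : ZCy.F.EvApi Y.var) (hY : X.Sec Y f)
    {ρ : Rd p (X.LR Y.g) Y.F} (hρ : X.IsEv Y.g ρ.hom) (hR : Reg p m (X.LR Y.g)) {b : BR X.F}
    (hb : b ∈ X.Bw) (ha : spv ρ.hom b ∈ Y.var.Bw) : X.Mt Y (spv ρ.hom b) b := by
  refine ⟨ha, hb, fun M _ _ x hx => ?_⟩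
  have hx' := ((hY M x).1 hx).1
  obtain ⟨U, e, he, h1, h2⟩ := (eX.vw b hb M x hx' _).2 rfl
  obtain ⟨e', he'⟩ := lr_ev (X := Y.var) hx
  have hle := lr_le hY hx
  let ψ : X.LR x →+* Y.var.LR x :=
    (ρ.hom.comp (Subring.inclusion hle)).codRestrict _ fun a =>
      im_lr hY hρ hx ▸ (⟨⟨a, hle a.2⟩, a.2, rfl⟩ : _ ∈ ρ.im (X.LR x))
  obtain ⟨U', h'⟩ := uc_bc U ψ
  refine (eY.vw _ ha M x hx _).1 ⟨U', e', he', ?_, ?_⟩
  · rw [h', ← h1, spv_le hR hle]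
    rfl
  · rw [h', ← h2]
    refine congrArg U.val (RingHom.ext fun a => ?_)
    obtain ⟨c, hc⟩ := lr_mem.1 a.2
    obtain ⟨b', k1, k2⟩ := reg_sec hY hx hc
    rw [he a c hc]
    refine he' _ c ?_
    rw [show ((ψ a : Y.var.LR x) : Y.F) = b' from hρ ⟨a, hle a.2⟩ b' k1]
    exact k2

theorem lefp (hE : ZCy.F.EV) : LEFp := by
  intro p _ k _ _ F₀ _ _ _ _ X n hX hn
  have hk := gk_global p k F₀
  have := infinite_global k F₀
  have : CharP X.F p := charP_of_injective_algebraMap (algebraMap k X.F).injective p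
  obtain ⟨n, rfl⟩ : ∃ n', n = n' + 1 := ⟨n - 1, by omega⟩
  obtain ⟨l, hl, hb⟩ := exists_b1 hX.dim
  have h0 := b1_ne hX.dim hl hb
  have hC := cov_cr hl hX hk h0
  obtain ⟨m₀, hm⟩ := esz_prj hk.fb hC (prj_cr hX.dim hl hb)
  refine ⟨m₀.toNat + 1, fun d hd f Y hf hYn hY hs a ha ⟨r, hr⟩ => ?_⟩
  have : CharP Y.F p := charP_of_injective_algebraMap (algebraMap k Y.F).injective p
  have hYn' : Y.var.Nice n := hYn
  have h1 := sec_l_ne hX hk hY hf hs hl hC (hm _ (by omega) 0 (by omega)).1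
  obtain ⟨ρ, hρ⟩ := exists_rd_ev hX hk hY
  have H := fun i => sec_pr hX hk hY hYn' hf hs (hl i) (h1 i) hρ
  have hR : Reg p (1 + n + 1) (X.LR Y.g) := lr_reg (r := 1) hX hk (sec_on hY).1
  have hbY : Y.var.B1 l := fun Ω _ _ x hx => hb Ω x ((hY Ω x).1 hx).1
  obtain ⟨v2, v1⟩ := van_rel (m := 1 + n) hC H (fun q hq => (hm _ (by omega) q (by omega)).1)
    (fun q hq => (hm _ (by omega) q (by omega)).1) fun q hq => (hm _ (by omega) q (by omega)).2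
  obtain ⟨b, k1, k2, k3⟩ := (spd ρ hR.1.hb (H 0).smY.hb hR).lef_pow (m := 1 + n) hC H v2 v1 r
    (fun i O hO => (mem_bw (X := Y.var) hl h1 hbY).1 ha i O (im_cr hY hρ (hl i) (h1 i) ▸ hO)) hr
  obtain rfl : spv ρ.hom b = a := k3
  exact ⟨b, mt_spv (hE k X _ hX (by omega)) (hE k _ _ hYn' (by omega)) hY hρ hR
    ((mem_bw hl h0 hb).2 k1) ha, r, k2⟩

end Pool.Agent.ZFd
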