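import Pool.Agent.Lib.MP_751085_ag.ZF.X.Defs
import Pool.Agent.Lib.MP_751085_ag.ZF.D.OmS
import Pool.Agent.Lib.MP_751085_ag.ZC.CDim

/-! Points, local rings and coordinate rings. -/

namespace Pool.Agent.ZFd

open scoped Classical
open MvPolynomial
open Pool.Agent.ZCy (Var Gen Fm grad)

variable {k M : Type} [Field k] [Field M] [Algebra k M] {X : Var k} {x : Fin (X.N + 1) → M}
  {l G H : Fm X.N k} {d : ℕ} {a b : X.F} {m m' : M} {O : Subring X.F}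

theorem gv_ne (hx : X.On x) (hG : G.IsHomogeneous d) (h : aeval x G ≠ 0) : gv X G ≠ 0 := fun e =>
  h (hx.2 G ⟨⟨d, hG⟩, e⟩)

theorem reg_div (hx : X.On x) (hG : G.IsHomogeneous d) (hH : H.IsHomogeneous d)
    (h : aeval x H ≠ 0) : X.Reg x (gv X G / gv X H) (aeval x G / aeval x H) :=
  ⟨d, G, H, hG, hH, h, div_mul_cancel₀ _ (gv_ne hx hH h), div_mul_cancel₀ _ h⟩

theorem reg_unique (hx : X.On x) (h : X.Reg x a m) (h' : X.Reg x a m') : m = m' := by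
  obtain ⟨d, G, H, hG, hH, h0, h1, h2⟩ := h
  obtain ⟨d', G', H', hG', hH', h0', h1', h2'⟩ := h'
  have h3 := hx.2 (G * H' - H * G') ⟨⟨_, (hG.mul hH').sub (hH.mul hG')⟩, by
    rw [map_sub, map_mul, map_mul, ← h1, ← h1']
    ring⟩
  rw [map_sub, map_mul, map_mul, ← h2, ← h2'] at h3
  exact mul_right_cancel₀ (mul_ne_zero h0 h0') (by linear_combination h3)

theorem reg_add (h : X.Reg x a m) (h' : X.Reg x b m') : X.Reg x (a + b) (m + m') := by
  obtain ⟨d, G, H, hG, hH, h0, h1, h2⟩ := h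
  obtain ⟨d', G', H', hG', hH', h0', h1', h2'⟩ := h'
  refine ⟨_, G * H' + H * G', H * H', (hG.mul hH').add (hH.mul hG'), hH.mul hH', ?_, ?_, ?_⟩ <;>
    simp only [map_add, map_mul, ← h1, ← h1', ← h2, ← h2']
  exacts [mul_ne_zero h0 h0', by ring, by ring]

theorem reg_mul (h : X.Reg x a m) (h' : X.Reg x b m') : X.Reg x (a * b) (m * m') := by
  obtain ⟨d, G, H, hG, hH, h0, h1, h2⟩ := h
  obtain ⟨d', G', H', hG', hH', h0', h1', h2'⟩ := h'
  refine ⟨_, G * G', H * H', hG.mul hG', hH.mul hH', ?_, ?_, ?_⟩ <;>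
    simp only [map_mul, ← h1, ← h1', ← h2, ← h2']
  exacts [mul_ne_zero h0 h0', by ring, by ring]

theorem reg_neg (h : X.Reg x a m) : X.Reg x (-a) (-m) := by
  obtain ⟨d, G, H, hG, hH, h0, h1, h2⟩ := h
  exact ⟨d, -G, H, hG.neg, hH, h0, by rw [map_neg, neg_mul, h1], by rw [map_neg, neg_mul, h2]⟩

theorem reg_const (x : Fin (X.N + 1) → M) (c : k) :
    X.Reg x (algebraMap k X.F c) (algebraMap k M c) :=
  ⟨0, C c, 1, isHomogeneous_C _ c, isHomogeneous_one _ _, by simp, by simp, by simp⟩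

theorem reg_inv (hx : X.On x) (h : X.Reg x a m) (hm : m ≠ 0) : a ≠ 0 ∧ X.Reg x a⁻¹ m⁻¹ := by
  obtain ⟨d, G, H, hG, hH, h0, h1, h2⟩ := h
  have h3 : aeval x G ≠ 0 := h2 ▸ mul_ne_zero hm h0
  have h4 : a ≠ 0 := left_ne_zero_of_mul (h1.trans_ne (gv_ne hx hG h3))
  exact ⟨h4, d, H, G, hH, hG, h3, by rw [← h1, inv_mul_cancel_left₀ h4],
    by rw [← h2, inv_mul_cancel_left₀ hm]⟩

theorem reg_smul {c : M} (hc : c ≠ 0) : X.Reg (c • x) a m ↔ X.Reg x a m := by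
  refine exists₃_congr fun d G H => and_congr_right fun hG => and_congr_right fun hH => ?_
  rw [ZCy.aeval_smul_hom hG, ZCy.aeval_smul_hom hH, mul_left_comm,
    mul_right_inj' (pow_ne_zero d hc), mul_ne_zero_iff_left (pow_ne_zero d hc)]

theorem lr_mem : a ∈ X.LR x ↔ ∃ m, X.Reg x a m := by
  refine ⟨fun h => ?_, fun h => Subring.subset_closure h⟩
  induction h using Subring.closure_induction with
  | mem _ h => exact h
  | zero => exact ⟨_, map_zero (algebraMap k X.F) ▸ reg_const x 0⟩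
  | one => exact ⟨_, map_one (algebraMap k X.F) ▸ reg_const x 1⟩
  | add _ _ _ _ h h' => exact ⟨_, reg_add h.choose_spec h'.choose_spec⟩
  | neg _ _ h => exact ⟨_, reg_neg h.choose_spec⟩
  | mul _ _ _ _ h h' => exact ⟨_, reg_mul h.choose_spec h'.choose_spec⟩

theorem lr_smul {c : M} (hc : c ≠ 0) : X.LR (c • x) = X.LR x :=
  Subring.ext fun _ => by simp only [lr_mem, reg_smul hc]

theorem lr_ev (hx : X.On x) : ∃ e : X.LR x →+* M, X.IsEv x e := by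
  choose e he using fun f : X.LR x => lr_mem.1 f.2
  exact ⟨⟨⟨⟨e, reg_unique hx (he 1) (by simpa using reg_const x 1)⟩, fun a b =>
    reg_unique hx (he _) (reg_mul (he a) (he b))⟩,
    reg_unique hx (he 0) (by simpa using reg_const x 0), fun a b =>
    reg_unique hx (he _) (reg_add (he a) (he b))⟩, fun f m h => reg_unique hx (he f) h⟩

theorem lr_un (hx : X.On x) (h : X.Reg x a m) : Un (X.LR x) a ↔ m ≠ 0 := by
  refine ⟨fun ⟨_, h1, h2⟩ => ?_, fun hm =>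
    ⟨lr_mem.2 ⟨m, h⟩, (reg_inv hx h hm).1, lr_mem.2 ⟨_, (reg_inv hx h hm).2⟩⟩⟩
  obtain ⟨m', h3⟩ := lr_mem.1 h2
  exact left_ne_zero_of_mul_eq_one (reg_unique hx (reg_mul h h3)
    (by simpa [h1] using reg_const x 1))

theorem lr_loc (hx : X.On x) : IsLoc (X.LR x) (X.LR x) := by
  refine ⟨le_rfl, fun z hz => ?_, fun z hz => ⟨1, one_mem _, un_one _, by rwa [one_mul]⟩⟩
  obtain ⟨m, h⟩ := lr_mem.1 hz
  have h1 := reg_add (reg_const x 1) (reg_neg h)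
  rw [map_one, map_one, ← sub_eq_add_neg, ← sub_eq_add_neg] at h1
  rw [lr_un hx h, lr_un hx h1]
  exact (ne_or_eq m 0).imp_right fun e => by rw [e, sub_zero]; exact one_ne_zero

theorem cr_const (l : Fm X.N k) (c : k) : algebraMap k X.F c ∈ cr X l :=
  Subalgebra.algebraMap_mem (Algebra.adjoin k _) c

theorem g1_div (hG : G.IsHomogeneous d) (u : X.F) :
    aeval (fun j => X.g j / u) G = gv X G / u ^ d := by
  rw [div_eq_inv_mul, ← inv_pow, ← ZCy.aeval_smul_hom hG]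
  exact congrArg (aeval · G) (funext fun j => div_eq_inv_mul _ _)

theorem g1_mem (hG : G.IsHomogeneous d) (l : Fm X.N k) : gv X G / gv X l ^ d ∈ cr X l := by
  rw [← g1_div hG, cr, Algebra.adjoin_range_eq_range_aeval]
  exact ⟨G, rfl⟩

theorem g1_reg (hl : l.IsHomogeneous 1) (hx : X.On x) (h : aeval x l ≠ 0)
    (hG : G.IsHomogeneous d) : X.Reg x (gv X G / gv X l ^ d) (aeval x G / aeval x l ^ d) := by
  have h1 := reg_div hx hG (H := l ^ d) (by simpa using hl.pow d)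
    (by rw [map_pow]; exact pow_ne_zero _ h)
  rwa [gv, gv, map_pow, map_pow] at h1

theorem mem_cr (hl : l.IsHomogeneous 1) (h0 : gv X l ≠ 0) :
    a ∈ cr X l ↔ ∃ (d : ℕ) (G : Fm X.N k), G.IsHomogeneous d ∧ a = gv X G / gv X l ^ d := by
  refine ⟨fun h => ?_, fun ⟨d, G, hG, e⟩ => e ▸ g1_mem hG l⟩
  induction h using Algebra.adjoin_induction with
  | mem _ h =>
    obtain ⟨j, rfl⟩ := h
    exact ⟨1, MvPolynomial.X j, isHomogeneous_X _ j, by simp⟩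
  | algebraMap c => exact ⟨0, C c, isHomogeneous_C _ c, by simp⟩
  | add _ _ _ _ h h' =>
    obtain ⟨d, G, hG, rfl⟩ := h
    obtain ⟨d', G', hG', rfl⟩ := h'
    refine ⟨d + d', G * l ^ d' + l ^ d * G', (hG.mul (by simpa using hl.pow d')).add
      (IsHomogeneous.mul (by simpa using hl.pow d) hG'), ?_⟩
    rw [div_add_div _ _ (pow_ne_zero _ h0) (pow_ne_zero _ h0), pow_add]
    simp only [gv, map_add, map_mul, map_pow]
  | mul _ _ _ _ h h' =>
    obtain ⟨d, G, hG, rfl⟩ := h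
    obtain ⟨d', G', hG', rfl⟩ := h'
    exact ⟨d + d', G * G', hG.mul hG', by rw [div_mul_div_comm, pow_add, ← map_mul]⟩

theorem cr_frac (hl : l.IsHomogeneous 1) (h0 : gv X l ≠ 0) (z : X.F) :
    ∃ s ∈ cr X l, s ≠ 0 ∧ s * z ∈ cr X l := by
  have _ := hl
  obtain ⟨i, hi⟩ := X.one
  obtain ⟨P, Q, rfl⟩ := (IntermediateField.mem_adjoin_range_iff k X.g z).1
    (X.gen ▸ IntermediateField.mem_top)
  obtain ⟨P', D, h1, h2⟩ := ZCy.dim_hom P i
  obtain ⟨Q', D', h3, h4⟩ := ZCy.dim_hom Q i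
  rw [← h2 _ _ hi, ← h4 _ _ hi]
  have h5 : (gv X l)⁻¹ ∈ cr X l := Algebra.subset_adjoin ⟨i, by rw [← one_div, ← hi]⟩
  obtain h | h := eq_or_ne (gv X Q') 0
  · exact ⟨1, one_mem _, one_ne_zero, by rw [show aeval X.g Q' = 0 from h]; simp⟩
  · refine ⟨_, mul_mem (g1_mem h3 l) (pow_mem h5 D),
      mul_ne_zero (div_ne_zero h (pow_ne_zero _ h0)) (pow_ne_zero _ (inv_ne_zero h0)), ?_⟩
    rw [show gv X Q' / gv X l ^ D' * (gv X l)⁻¹ ^ D * (gv X P' / gv X Q') =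
      gv X P' / gv X l ^ D * (gv X l)⁻¹ ^ D' by rw [inv_pow, inv_pow]; field_simp]
    exact mul_mem (g1_mem h1 l) (pow_mem h5 D')

theorem cr_eft (hk : Algebra.EssFiniteType ℤ k) (l : Fm X.N k) :
    Algebra.EssFiniteType ℤ (cr X l) := by
  have := (Subalgebra.fg_iff_finiteType _).1 ((Subalgebra.fg_def (R := k)).2
    ⟨_, Set.finite_range fun j => X.g j / gv X l, rfl⟩)
  exact Algebra.EssFiniteType.comp ℤ k (Algebra.adjoin k (Set.range fun j => X.g j / gv X l))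

theorem isLoc_lr (hl : l.IsHomogeneous 1) (hx : X.On x) (h : aeval x l ≠ 0) :
    IsLoc (cr X l) (X.LR x) := by
  have h0 := gv_ne hx hl h
  refine ⟨fun a ha => ?_, (lr_loc hx).loc, fun z hz => ?_⟩
  · obtain ⟨d, G, hG, rfl⟩ := (mem_cr hl h0).1 ha
    exact lr_mem.2 ⟨_, g1_reg hl hx h hG⟩
  · obtain ⟨m, d, G, H, hG, hH, h1, h2, -⟩ := lr_mem.1 hz
    refine ⟨_, g1_mem hH l, (lr_un hx (g1_reg hl hx h hH)).2 (div_ne_zero h1 (pow_ne_zero _ h)), ?_⟩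
    rw [div_mul_eq_mul_div, mul_comm, h2]
    exact g1_mem hG l

/-- `M` is the residue field of `O` -/
theorem exists_pt (hl : l.IsHomogeneous 1) (h0 : gv X l ≠ 0) (hO : IsLoc (cr X l) O) :
    ∃ (M : Type) (_ : Field M) (_ : Algebra k M) (x : Fin (X.N + 1) → M),
      X.On x ∧ aeval x l = 1 ∧ O = X.LR x := by
  have := hO.isLocalRing
  let κ : k →+* O := (algebraMap k X.F).codRestrict O fun c => hO.le (cr_const l c)
  let y : Fin (X.N + 1) → O := fun j => ⟨_, hO.le (Algebra.subset_adjoin ⟨j, rfl⟩)⟩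
  let ρ := IsLocalRing.residue O
  let := (ρ.comp κ).toAlgebra
  have key : ∀ {G : Fm X.N k} {d : ℕ}, G.IsHomogeneous d →
      ∃ z : O, z = gv X G / gv X l ^ d ∧ aeval (fun j => ρ (y j)) G = ρ z := fun {G d} hG =>
    ⟨eval₂ κ y G, (hom_eval₂ G κ O.subtype y).trans (g1_div hG _), (hom_eval₂ G κ ρ y).symm⟩
  have h1 : aeval (fun j => ρ (y j)) l = 1 := by
    obtain ⟨z, h1, h2⟩ := key hl
    rw [h2, show z = 1 from Subtype.ext (by rw [h1, pow_one, div_self h0]; rfl), map_one]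
  have hx : X.On fun j => ρ (y j) := ⟨fun e => by
    rw [e, ← zero_smul (IsLocalRing.ResidueField O) 0, ZCy.aeval_smul_hom hl, pow_one,
      zero_mul] at h1
    exact zero_ne_one h1, fun G ⟨⟨d, hG⟩, e⟩ => by
    obtain ⟨z, h1, h2⟩ := key hG
    rw [h2, show z = 0 from Subtype.ext (by rw [h1, gv, e, zero_div]; rfl), map_zero]⟩
  have h2 := h1.trans_ne one_ne_zero
  refine ⟨_, inferInstance, inferInstance, _, hx, h1, hO.ext (isLoc_lr hl hx h2) fun a ha => ?_⟩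
  obtain ⟨d, G, hG, rfl⟩ := (mem_cr hl h0).1 ha
  obtain ⟨z, h3, h4⟩ := key hG
  rw [lr_un hx (g1_reg hl hx h2 hG), ← h3, un_iff, h1, one_pow, div_one, h4,
    IsLocalRing.residue_ne_zero_iff_isUnit]

/-- Nullstellensatz -/
theorem pow_div_mem (hl : l.IsHomogeneous 1) (h0 : gv X l ≠ 0) {d' : ℕ} (hG : G.IsHomogeneous d)
    (hH : H.IsHomogeneous d') (hH0 : gv X H ≠ 0)
    (h : ∀ (M : Type) [Field M] [Algebra k M] (x : Fin (X.N + 1) → M), X.On x → aeval x H = 0 →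
      aeval x G = 0) :
    ∃ n, n ≠ 0 ∧ (gv X G / gv X l ^ d) ^ n / (gv X H / gv X l ^ d') ∈ cr X l := by
  have h1 : (⟨_, g1_mem hG l⟩ : cr X l) ∈ (Ideal.span {(⟨_, g1_mem hH l⟩ : cr X l)}).radical := by
    rw [Ideal.radical_eq_sInf, Ideal.mem_sInf]
    rintro 𝔭 ⟨h1, h2⟩
    obtain ⟨O, hO, h3⟩ := exists_loc 𝔭
    obtain ⟨M, _, _, x, hx, h4, rfl⟩ := exists_pt hl h0 hO
    have h5 := h4.trans_ne one_ne_zero
    refine by_contra fun h6 => (h3 _).1 ?_ (h1 (Ideal.mem_span_singleton_self _))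
    have h7 := (lr_un hx (g1_reg hl hx h5 hG)).1 ((h3 _).2 h6)
    exact (lr_un hx (g1_reg hl hx h5 hH)).2 (div_ne_zero
      (fun e => h7 (by rw [h M x hx e, zero_div])) (pow_ne_zero _ h5))
  obtain ⟨n, hn⟩ := h1
  obtain ⟨c, hc⟩ := Ideal.mem_span_singleton'.1 hn
  refine ⟨n + 1, n.succ_ne_zero, ?_⟩
  rw [pow_succ', ← show _ = (gv X G / gv X l ^ d) ^ n from congrArg Subtype.val hc, mul_div_assoc]
  exact mul_mem (g1_mem hG l) ((mul_div_cancel_right₀ (c : X.F)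
    (div_ne_zero hH0 (pow_ne_zero d' h0))).symm ▸ c.2)

theorem lrs_iff {κ : Type} {l : κ → Fm X.N k} (hl : ∀ i, (l i).IsHomogeneous 1)
    (h0 : ∀ i, gv X (l i) ≠ 0) (hb : X.B1 l) : O ∈ X.lrs ↔ ∃ i, IsLoc (cr X (l i)) O := by
  refine ⟨?_, fun ⟨i, hO⟩ => ?_⟩
  · rintro ⟨M, _, _, x, hx, rfl⟩
    exact (hb M x hx).imp fun i => isLoc_lr (hl i) hx
  · obtain ⟨M, _, _, x, hx, -, e⟩ := exists_pt (hl i) (h0 i) hO
    exact ⟨M, _, _, x, hx, e⟩

theorem mem_bw {κ : Type} {l : κ → Fm X.N k} (hl : ∀ i, (l i).IsHomogeneous 1)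
    (h0 : ∀ i, gv X (l i) ≠ 0) (hb : X.B1 l) {α : ZCy.F.BR X.F} :
    α ∈ X.Bw ↔ ∀ i O, IsLoc (cr X (l i)) O → α ∈ ZCy.F.Loc O := by
  simp only [Var.Bw, AddSubgroup.mem_iInf, lrs_iff hl h0 hb]
  exact ⟨fun h i O hO => h O ⟨i, hO⟩, fun h O ⟨i, hO⟩ => h i O hO⟩

end Pool.Agent.ZFd
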